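import Pool.Agent.Helper72.UGE.Window
import Pool.Agent.Helper8.NE.ApChange

/-!
# Project UG, half (i): the uniform gap in every residue class, at almost all scales of every window
-/

set_option autoImplicit false

namespace UGE

open Finset MRP UGD UGA

/-- The number of `n ≤ M` in the class `r` modulo `q` for which the sum of `Ω(n + b)`, `b ∈ B`, is not `t` modulo 2. -/
def exB (B : Finset ℕ) (q r : ℕ) (t : ZMod 2) (M : ℕ) : ℕ :=
  ((Icc 1 M).filter (fun n => n % q = r ∧ ∑ b ∈ B, gg (n + b) ≠ t)).card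

theorem sg_gg (n : ℕ) : sg (gg n) = (-1 : ℝ) ^ (ArithmeticFunction.cardFactors n) := by
  unfold sg gg
  rcases Nat.even_or_odd (ArithmeticFunction.cardFactors n) with h | h
  · have : ((ArithmeticFunction.cardFactors n : ℕ) : ZMod 2) = 0 := (ZMod.natCast_eq_zero_iff_even).2 h
    rw [show ((Om n : ℕ) : ZMod 2) = 0 from this, if_pos rfl, h.neg_one_pow]
  · have : ((ArithmeticFunction.cardFactors n : ℕ) : ZMod 2) = 1 := (ZMod.natCast_eq_one_iff_odd).2 h
    rw [show ((Om n : ℕ) : ZMod 2) = 1 from this, if_neg (by decide), h.neg_one_pow]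

theorem sg_sum (B : Finset ℕ) (u : ℕ → ZMod 2) : sg (∑ b ∈ B, u b) = ∏ b ∈ B, sg (u b) := by
  classical
  induction B using Finset.induction_on with
  | empty => simp [sg]
  | insert a B ha ih => rw [Finset.sum_insert ha, Finset.prod_insert ha, sg_add, ih]

theorem corr_eq (B : Finset ℕ) (q r M : ℕ) (t : ZMod 2) :
    ∑ n ∈ (Icc 1 M).filter (fun n => n % q = r),
        ∏ b ∈ B, (-1 : ℝ) ^ (ArithmeticFunction.cardFactors (n + b)) =
      sg t * ((((Icc 1 M).filter (fun n => n % q = r)).card : ℝ) - 2 * (exB B q r t M : ℝ)) := by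
  classical
  have h1 := sum_sign ((Icc 1 M).filter (fun n => n % q = r)) (fun n => ∑ b ∈ B, gg (n + b)) t
  rw [Finset.filter_filter] at h1
  unfold exB
  rw [← h1]
  refine Finset.sum_congr rfl fun n _ => ?_
  rw [sg_sum]
  exact Finset.prod_congr rfl fun b _ => (sg_gg _).symm

/-- A set of at least two shifts. -/
theorem exists_shifts (B : Finset ℕ) (d : ℕ) (hB : B.card = d + 1) :
    ∃ (h : Fin d → ℕ) (H : ℕ), (∀ i, h i < H) ∧ ∀ n, ff h H n = ∑ b ∈ B, gg (n + b) := by
  classical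
  have hne : B.Nonempty := by
    rw [← Finset.card_pos, hB]; omega
  set H := B.max' hne with hH
  have hHB : H ∈ B := Finset.max'_mem B hne
  have hcard : (B.erase H).card = d := by
    rw [Finset.card_erase_of_mem hHB, hB]; rfl
  refine ⟨fun i => (B.erase H).orderEmbOfFin hcard i, H, fun i => ?_, fun n => ?_⟩
  · have h1 := (B.erase H).orderEmbOfFin_mem hcard i
    rw [Finset.mem_erase] at h1
    exact lt_of_le_of_ne (Finset.le_max' B _ h1.2) h1.1
  · unfold ff
    have h1 : ∑ j : Fin d, gg (n + (B.erase H).orderEmbOfFin hcard j) =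
        ∑ b ∈ B.erase H, gg (n + b) := by
      have h2 := Finset.map_orderEmbOfFin_univ (B.erase H) hcard
      conv_rhs => rw [← h2]
      rw [Finset.sum_map]
      rfl
    rw [h1, Finset.sum_erase_add B _ hHB]

private theorem zmod2 (x y : ZMod 2) (t : ZMod 2) (h : x ≠ y) : x ≠ t ∨ y ≠ t := by
  revert x y t
  decide

/-- One shift, every scale. -/
theorem one_shift (q : ℕ) (hq : 0 < q) : ∃ δ : ℝ, 0 < δ ∧ ∀ b : ℕ, ∃ M₀ : ℕ, ∀ M : ℕ, M₀ ≤ M →
    ∀ r < q, ∀ t : ZMod 2, δ * M < (exB {b} q r t M : ℝ) := by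
  classical
  have hch := fun r : ℕ => NE.ap_change q r hq
  choose δ' hδ' N0 hN0 using hch
  set δ : ℝ := (range q).inf' (Finset.nonempty_range_iff.2 hq.ne') δ' with hδ
  have hδpos : 0 < δ := by
    rw [hδ, Finset.lt_inf'_iff]
    exact fun r _ => hδ' r
  have hδle : ∀ r < q, δ ≤ δ' r := fun r hr => Finset.inf'_le _ (Finset.mem_range.2 hr)
  refine ⟨δ / 8, by positivity, fun b => ?_⟩
  obtain ⟨M₁, hM₁⟩ := exists_nat_gt ((4 * b + 4 * q + 4) / δ)
  refine ⟨max M₁ ((range q).sup N0), fun M hM r hr t => ?_⟩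
  have hMR : (4 * b + 4 * q + 4 : ℝ) < δ * M := by
    have h1 : (M₁ : ℝ) ≤ M := by exact_mod_cast le_trans (le_max_left _ _) hM
    have h2 : (4 * b + 4 * q + 4 : ℝ) / δ < M := hM₁.trans_le h1
    rw [div_lt_iff₀ hδpos] at h2
    linarith
  set r' : ℕ := (r + b) % q with hr'
  have hr'q : r' < q := Nat.mod_lt _ hq
  have hN0M : N0 r' ≤ M := by
    refine le_trans (le_trans (Finset.le_sup (Finset.mem_range.2 hr'q)) (le_max_right _ _)) hM
  have h1 := hN0 r' M hN0M
  -- the sign changes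
  set S := (Icc 1 M).filter (fun n => n % q = r' % q ∧ NE.lamR n ≠ NE.lamR (n + q)) with hS
  have hS1 : δ * M ≤ (S.card : ℝ) := by
    have h2 : δ * M ≤ δ' r' * M := mul_le_mul_of_nonneg_right (hδle r' hr'q) (Nat.cast_nonneg _)
    exact h2.trans h1
  set E := (Icc 1 M).filter (fun n => n % q = r ∧ ∑ b' ∈ ({b} : Finset ℕ), gg (n + b') ≠ t) with hE
  -- each sign change outside the boundary gives an exception
  have hsub : S ⊆ ((range (b + 1) ∪ E.image (fun n => n + b)) ∪ E.image (fun n => n + b - q)) ∪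
      (Ioc M (M + q)).image (fun n => n - q) := by
    intro n hn
    rw [hS, Finset.mem_filter, Finset.mem_Icc] at hn
    obtain ⟨⟨hn1, hnM⟩, hnr, hne⟩ := hn
    by_cases hnb : n ≤ b
    · simp only [Finset.mem_union, Finset.mem_range]
      exact Or.inl (Or.inl (Or.inl (by omega)))
    push Not at hnb
    have hgg := gg_ne hne
    have hcls : (n - b) % q = r := by
      have e1 : n ≡ r + b [MOD q] := by
        show n % q = (r + b) % q
        rw [hnr, hr', Nat.mod_mod]
      have e2 : (n - b) + b ≡ r + b [MOD q] := by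
        rw [Nat.sub_add_cancel hnb.le]; exact e1
      have e3 : n - b ≡ r [MOD q] := Nat.ModEq.add_right_cancel' b e2
      have e4 : (n - b) % q = r % q := e3
      rw [e4, Nat.mod_eq_of_lt hr]
    have hcls2 : (n + q - b) % q = r := by
      have : n + q - b = (n - b) + q := by omega
      rw [this, Nat.add_mod_right, hcls]
    rcases zmod2 _ _ t hgg with h2 | h2
    · have : n - b ∈ E := by
        rw [hE, Finset.mem_filter, Finset.mem_Icc, Finset.sum_singleton]
        refine ⟨⟨by omega, by omega⟩, hcls, ?_⟩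
        rw [Nat.sub_add_cancel hnb.le]
        exact h2
      simp only [Finset.mem_union, Finset.mem_image]
      exact Or.inl (Or.inl (Or.inr ⟨n - b, this, by omega⟩))
    · by_cases hnM' : n + q - b ≤ M
      · have : n + q - b ∈ E := by
          rw [hE, Finset.mem_filter, Finset.mem_Icc, Finset.sum_singleton]
          refine ⟨⟨by omega, hnM'⟩, hcls2, ?_⟩
          have e5 : n + q - b + b = n + q := by omega
          rw [e5]
          exact h2
        simp only [Finset.mem_union, Finset.mem_image]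
        exact Or.inl (Or.inr ⟨n + q - b, this, by omega⟩)
      · simp only [Finset.mem_union, Finset.mem_image, Finset.mem_Ioc]
        exact Or.inr ⟨n + q, ⟨by omega, by omega⟩, by omega⟩
  have hcard := Finset.card_le_card hsub
  have hc1 : (((range (b + 1) ∪ E.image (fun n => n + b)) ∪ E.image (fun n => n + b - q)) ∪
      (Ioc M (M + q)).image (fun n => n - q)).card ≤ ((b + 1 + E.card) + E.card) + q := by
    refine (Finset.card_union_le _ _).trans (Nat.add_le_add ((Finset.card_union_le _ _).trans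
      (Nat.add_le_add ((Finset.card_union_le _ _).trans (Nat.add_le_add (by simp) Finset.card_image_le))
        Finset.card_image_le)) (Finset.card_image_le.trans (by simp)))
  have hc2 : (S.card : ℝ) ≤ 2 * (E.card : ℝ) + b + q + 1 := by
    have : S.card ≤ 2 * E.card + b + q + 1 := by omega
    exact_mod_cast this
  have hE' : (exB {b} q r t M : ℝ) = (E.card : ℝ) := rfl
  rw [hE']
  have hb0 : (0 : ℝ) ≤ b := Nat.cast_nonneg _
  have hq0 : (0 : ℝ) ≤ q := Nat.cast_nonneg _
  linarith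

/-- The gap at almost all scales, for each class and sign. -/
theorem winB (l q : ℕ) (hl : 1 ≤ l) (hq : 0 < q) : ∃ δ : ℝ, 0 < δ ∧
    ∀ B : Finset ℕ, B.card = l → ∀ r < q, ∀ t : ZMod 2, ∀ ε : ℝ, 0 < ε →
      ∃ K₀ : ℕ, ∀ N K : ℕ, K₀ ≤ K → K ≤ N →
        ∑ M ∈ Ioc (N / K) N, (if (exB B q r t M : ℝ) ≤ δ * M then 1 / (M : ℝ) else 0) ≤
          ε * Real.log K := by
  classical
  have _ : NeZero q := ⟨hq.ne'⟩
  obtain ⟨d, rfl⟩ : ∃ d, l = d + 1 := ⟨l - 1, by omega⟩
  rcases Nat.eq_zero_or_pos d with hd | hd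
  · subst hd
    obtain ⟨δ, hδ, h1⟩ := one_shift q hq
    refine ⟨δ, hδ, fun B hB r hr t ε hε => ?_⟩
    obtain ⟨b, rfl⟩ := Finset.card_eq_one.1 hB
    obtain ⟨M₀, hM₀⟩ := h1 b
    set a : ℝ := ∑ M ∈ Icc 1 M₀, 1 / (M : ℝ) with ha
    obtain ⟨K₀, hK₀⟩ := exists_nat_gt (Real.exp (a / ε))
    refine ⟨K₀, fun N K hK hKN => ?_⟩
    have hK' : Real.exp (a / ε) ≤ K := by
      have : (K₀ : ℝ) ≤ K := by exact_mod_cast hK
      linarith
    have hKpos : (0 : ℝ) < K := lt_of_lt_of_le (Real.exp_pos _) hK'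
    have hlog : a ≤ ε * Real.log K := by
      have h2 := (Real.le_log_iff_exp_le hKpos).2 hK'
      rw [div_le_iff₀ hε] at h2
      linarith
    refine le_trans ?_ hlog
    rw [ha, ← Finset.sum_filter]
    refine Finset.sum_le_sum_of_subset_of_nonneg ?_ fun M _ _ => by positivity
    intro M hM
    rw [Finset.mem_filter, Finset.mem_Ioc] at hM
    rw [Finset.mem_Icc]
    refine ⟨Nat.succ_le_of_lt (lt_of_le_of_lt (Nat.zero_le _) hM.1.1), ?_⟩
    by_contra hcon
    push Not at hcon
    have := hM₀ M hcon.le r hr t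
    linarith [hM.2]
  · obtain ⟨δ, hδ, hw⟩ := window d q hd
    refine ⟨δ, hδ, fun B hB r hr t ε hε => ?_⟩
    obtain ⟨h, H, hH, hff⟩ := exists_shifts B d hB
    obtain ⟨K₀, hK₀⟩ := hw h H hH r hr t ε hε
    refine ⟨K₀, fun N K hK hKN => ?_⟩
    have h1 : ∀ M, exB B q r t M = ex h H q r t M := by
      intro M
      unfold exB ex
      congr 1
      refine Finset.filter_congr fun n _ => ?_
      rw [hff]
    simp only [h1]
    exact hK₀ N K hK hKN

/-- **The uniform gap**: for every `l ≥ 1` and `q ≥ 1` there is `δ > 0` such that for ALL sets `B` of `l` shifts the sums of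
`∏_{b ∈ B} λ(n + b)` over the classes modulo `q` of `[1, M]` are at most `(1 - δ) M / q` in absolute value, for almost all scales `M` of
every window. -/
theorem uniform_gap (l q : ℕ) (hl : 1 ≤ l) (hq : 0 < q) : ∃ δ : ℝ, 0 < δ ∧ δ < 1 ∧
    ∀ B : Finset ℕ, B.card = l → ∀ ε : ℝ, 0 < ε → ∃ K₀ : ℕ, ∀ N K : ℕ, K₀ ≤ K → K ≤ N →
      ∑ M ∈ (Ioc (N / K) N).filter (fun M : ℕ => ∃ r < q, (1 - δ) * ((M : ℝ) / q) <
        |∑ n ∈ (Icc 1 M).filter (fun n => n % q = r),
          ∏ b ∈ B, (-1 : ℝ) ^ (ArithmeticFunction.cardFactors (n + b))|), 1 / (M : ℝ) ≤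
        ε * Real.log K := by
  classical
  obtain ⟨δ', hδ', hw⟩ := winB l q hl hq
  have hqR : (0 : ℝ) < q := by exact_mod_cast hq
  have hq1 : (1 : ℝ) ≤ q := by exact_mod_cast hq
  refine ⟨min δ' (1 / 2), lt_min hδ' (by norm_num), lt_of_le_of_lt (min_le_right _ _) (by norm_num),
    fun B hB ε hε => ?_⟩
  have hw' := fun (r : ℕ) (t : ZMod 2) => fun hr : r < q => hw B hB r hr t (ε / (4 * q)) (by positivity)
  choose! K₁ hK₁ using hw'
  obtain ⟨M₁, hM₁⟩ := exists_nat_gt (1 / δ')
  set a : ℝ := ∑ M ∈ Icc 1 M₁, 1 / (M : ℝ) with ha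
  have ha0 : 0 ≤ a := Finset.sum_nonneg fun M _ => by positivity
  obtain ⟨K₂, hK₂⟩ := exists_nat_gt (Real.exp (2 * a / ε))
  refine ⟨max K₂ ((range q).sup fun r => (Finset.univ : Finset (ZMod 2)).sup fun t => K₁ r t),
    fun N K hK hKN => ?_⟩
  have hK2 : Real.exp (2 * a / ε) ≤ K := by
    have : (K₂ : ℝ) ≤ K := by exact_mod_cast le_trans (le_max_left _ _) hK
    linarith
  have hK1 : ∀ r < q, ∀ t, K₁ r t ≤ K := by
    intro r hr t
    refine le_trans ?_ (le_trans (le_max_right _ _) hK)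
    refine le_trans ?_ (Finset.le_sup (f := fun r => (Finset.univ : Finset (ZMod 2)).sup fun t => K₁ r t)
      (Finset.mem_range.2 hr))
    exact Finset.le_sup (f := fun t => K₁ r t) (Finset.mem_univ t)
  have hKpos : (0 : ℝ) < K := lt_of_lt_of_le (Real.exp_pos _) hK2
  have hlog : 2 * a ≤ ε * Real.log K := by
    have h2 := (Real.le_log_iff_exp_le hKpos).2 hK2
    rw [div_le_iff₀ hε] at h2
    linarith
  -- pointwise
  have hpt : ∀ M ∈ Ioc (N / K) N, (if ∃ r < q, (1 - min δ' (1 / 2)) * ((M : ℝ) / q) <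
        |∑ n ∈ (Icc 1 M).filter (fun n => n % q = r),
          ∏ b ∈ B, (-1 : ℝ) ^ (ArithmeticFunction.cardFactors (n + b))| then 1 / (M : ℝ) else 0) ≤
      (∑ r ∈ range q, ∑ t : ZMod 2, (if (exB B q r t M : ℝ) ≤ δ' * M then 1 / (M : ℝ) else 0)) +
        (if M ≤ M₁ then 1 / (M : ℝ) else 0) := by
    intro M hM
    have hM0 : 1 ≤ M := Nat.succ_le_of_lt (lt_of_le_of_lt (Nat.zero_le _) (Finset.mem_Ioc.1 hM).1)
    have hMR : (0 : ℝ) < M := by exact_mod_cast hM0
    have hterm : ∀ r t, 0 ≤ (if (exB B q r t M : ℝ) ≤ δ' * M then 1 / (M : ℝ) else 0) := by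
      intro r t
      split_ifs
      · positivity
      · exact le_rfl
    have hsum0 : 0 ≤ ∑ r ∈ range q, ∑ t : ZMod 2,
        (if (exB B q r t M : ℝ) ≤ δ' * M then 1 / (M : ℝ) else 0) :=
      Finset.sum_nonneg fun r _ => Finset.sum_nonneg fun t _ => hterm r t
    have hsm : 0 ≤ (if M ≤ M₁ then 1 / (M : ℝ) else 0) := by
      split_ifs
      · positivity
      · exact le_rfl
    split_ifs with hex hMM hMM
    · linarith
    · rw [add_zero]
      push Not at hMM
      obtain ⟨r, hr, hc⟩ := hex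
      have hδM : 1 ≤ δ' * M := by
        have h1 : (M₁ : ℝ) ≤ M := by exact_mod_cast hMM.le
        have h2 : 1 / δ' < M := hM₁.trans_le h1
        rw [div_lt_iff₀ hδ'] at h2
        linarith
      have hcl := card_class_le M q r hq
      have hmin : min δ' (1 / 2) * ((M : ℝ) / q) ≤ δ' * M := by
        have h1 : (M : ℝ) / q ≤ M := div_le_self hMR.le hq1
        have h2 : 0 ≤ (M : ℝ) / q := by positivity
        calc min δ' (1 / 2) * ((M : ℝ) / q) ≤ δ' * ((M : ℝ) / q) :=
              mul_le_mul_of_nonneg_right (min_le_left _ _) h2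
          _ ≤ δ' * M := mul_le_mul_of_nonneg_left h1 hδ'.le
      obtain ⟨t, ht⟩ : ∃ t : ZMod 2, (exB B q r t M : ℝ) ≤ δ' * M := by
        rcases le_or_gt 0 (∑ n ∈ (Icc 1 M).filter (fun n => n % q = r),
          ∏ b ∈ B, (-1 : ℝ) ^ (ArithmeticFunction.cardFactors (n + b))) with h0 | h0
        · refine ⟨0, ?_⟩
          rw [abs_of_nonneg h0, corr_eq B q r M 0] at hc
          have : sg 0 = 1 := by simp [sg]
          rw [this, one_mul] at hc
          linarith
        · refine ⟨1, ?_⟩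
          rw [abs_of_neg h0, corr_eq B q r M 1] at hc
          have : sg 1 = -1 := by
            unfold sg
            rw [if_neg (by decide)]
          rw [this] at hc
          linarith
      have h3 : (if (exB B q r t M : ℝ) ≤ δ' * M then 1 / (M : ℝ) else 0) ≤
          ∑ t : ZMod 2, (if (exB B q r t M : ℝ) ≤ δ' * M then 1 / (M : ℝ) else 0) :=
        Finset.single_le_sum (f := fun t => if (exB B q r t M : ℝ) ≤ δ' * M then 1 / (M : ℝ) else 0)
          (fun t _ => hterm r t) (Finset.mem_univ t)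
      have h4 : ∑ t : ZMod 2, (if (exB B q r t M : ℝ) ≤ δ' * M then 1 / (M : ℝ) else 0) ≤
          ∑ r ∈ range q, ∑ t : ZMod 2,
            (if (exB B q r t M : ℝ) ≤ δ' * M then 1 / (M : ℝ) else 0) :=
        Finset.single_le_sum (f := fun r => ∑ t : ZMod 2,
            (if (exB B q r t M : ℝ) ≤ δ' * M then 1 / (M : ℝ) else 0))
          (fun r _ => Finset.sum_nonneg fun t _ => hterm r t) (Finset.mem_range.2 hr)
      rw [if_pos ht] at h3
      linarith
    · have : 0 ≤ 1 / (M : ℝ) := by positivity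
      linarith
    · linarith
  rw [Finset.sum_filter]
  calc ∑ M ∈ Ioc (N / K) N, (if ∃ r < q, (1 - min δ' (1 / 2)) * ((M : ℝ) / q) <
        |∑ n ∈ (Icc 1 M).filter (fun n => n % q = r),
          ∏ b ∈ B, (-1 : ℝ) ^ (ArithmeticFunction.cardFactors (n + b))| then 1 / (M : ℝ) else 0)
      ≤ ∑ M ∈ Ioc (N / K) N, ((∑ r ∈ range q, ∑ t : ZMod 2,
          (if (exB B q r t M : ℝ) ≤ δ' * M then 1 / (M : ℝ) else 0)) +
        (if M ≤ M₁ then 1 / (M : ℝ) else 0)) := Finset.sum_le_sum hpt
    _ = (∑ r ∈ range q, ∑ t : ZMod 2, ∑ M ∈ Ioc (N / K) N,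
          (if (exB B q r t M : ℝ) ≤ δ' * M then 1 / (M : ℝ) else 0)) +
        ∑ M ∈ Ioc (N / K) N, (if M ≤ M₁ then 1 / (M : ℝ) else 0) := by
        rw [Finset.sum_add_distrib, Finset.sum_comm]
        congr 1
        refine Finset.sum_congr rfl fun r _ => ?_
        rw [Finset.sum_comm]
    _ ≤ (∑ r ∈ range q, ∑ _t : ZMod 2, ε / (4 * q) * Real.log K) + a := by
        refine add_le_add (Finset.sum_le_sum fun r hr => Finset.sum_le_sum fun t _ => ?_) ?_
        · have hr' := Finset.mem_range.1 hr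
          exact hK₁ r t hr' N K (hK1 r hr' t) hKN
        · rw [ha, ← Finset.sum_filter]
          refine Finset.sum_le_sum_of_subset_of_nonneg ?_ fun M _ _ => by positivity
          intro M hM
          rw [Finset.mem_filter, Finset.mem_Ioc] at hM
          rw [Finset.mem_Icc]
          exact ⟨Nat.succ_le_of_lt (lt_of_le_of_lt (Nat.zero_le _) hM.1.1), hM.2⟩
    _ ≤ ε * Real.log K := by
        rw [Finset.sum_const, Finset.card_range, Finset.sum_const, Finset.card_univ, ZMod.card,
          nsmul_eq_mul, nsmul_eq_mul]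
        have h1 : (q : ℝ) * (((2 : ℕ) : ℝ) * (ε / (4 * q) * Real.log K)) = ε * Real.log K / 2 := by
          push_cast
          field_simp
          ring
        rw [h1]
        linarith

end UGE
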