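import Pool.Agent.Helper72.UGA.Bad
import Pool.Agent.Helper72.UGD.NoGap

/-!
# Project UG: the transfer between the scales

If the product `∏ λ(m + h_j)` is constant up to few exceptions on the class `r` modulo `q` of `[1, X / P]`, the scale `P` is bad at `X`
for the entropy decrement (`UGD.nogap`, dilation by the primes `p ∈ (P, 2P]`).
-/

set_option autoImplicit false

namespace UGE

open Finset MRP UGD UGA

/-- The sum of `Ω` modulo 2 over the shifts of `n`. -/
def ff {d : ℕ} (h : Fin d → ℕ) (H n : ℕ) : ZMod 2 := (∑ j, gg (n + h j)) + gg (n + H)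

/-- The sign of an element of `ZMod 2`. -/
noncomputable def sg (x : ZMod 2) : ℝ := if x = 0 then 1 else -1

/-- The sequence of letters. -/
def cc (q : ℕ) [NeZero q] (n : ℕ) : ZMod 2 × Fin q := (gg n, MRA.res q n)

/-- The test functions. -/
noncomputable def Phi {d : ℕ} (h : Fin d → ℕ) (H q r : ℕ) [NeZero q] (p : ℕ) (b : ℕ → ZMod 2 × Fin q) : ℝ :=
  if p = 0 then 0 else if (b 0).2 = MRA.res q (p * r) then
    sg ((∑ j, (b (p * h j)).1) + (b (p * H)).1) else 0

theorem sg_abs (x : ZMod 2) : |sg x| = 1 := by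
  unfold sg
  split_ifs <;> simp

theorem sg_add (x y : ZMod 2) : sg (x + y) = sg x * sg y := by
  revert x y
  have h : ∀ x : ZMod 2, x = 0 ∨ x = 1 := by decide
  intro x y
  have h2 : (1 : ZMod 2) + 1 = 0 := by decide
  have h3 : (1 : ZMod 2) ≠ 0 := by decide
  rcases h x with rfl | rfl <;> rcases h y with rfl | rfl <;> simp [sg, h2]

theorem Phi_abs {d : ℕ} (h : Fin d → ℕ) (H q r : ℕ) [NeZero q] (p : ℕ) (b : ℕ → ZMod 2 × Fin q) :
    |Phi h H q r p b| ≤ 1 := by
  unfold Phi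
  split_ifs
  · simp
  · rw [sg_abs]
  · simp

theorem Phi_loc {d : ℕ} (h : Fin d → ℕ) (H q r : ℕ) [NeZero q] (hH : ∀ i, h i < H) :
    Loc (H + 1) (Phi h H q r) := by
  intro p c c' hcc
  unfold Phi
  by_cases hp : p = 0
  · rw [if_pos hp, if_pos hp]
  · rw [if_neg hp, if_neg hp]
    have hp0 : 0 < p := Nat.pos_of_ne_zero hp
    have h0 : c 0 = c' 0 := hcc 0 (Nat.mul_pos (by omega) hp0)
    have h1 : ∀ k, k ≤ H → c (p * k) = c' (p * k) := by
      intro k hk
      refine hcc _ ?_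
      rw [mul_comm p k]
      exact Nat.mul_lt_mul_of_pos_right (by omega) hp0
    have h2 : ∑ j, (c (p * h j)).1 = ∑ j, (c' (p * h j)).1 :=
      Finset.sum_congr rfl fun j _ => by rw [h1 _ (hH j).le]
    rw [h0, h2, h1 H le_rfl]

theorem gg_mul {p m : ℕ} (hp : p.Prime) (hm : m ≠ 0) : gg (p * m) = 1 + gg m := by
  unfold gg
  have : Om (p * m) = 1 + Om m := by
    show ArithmeticFunction.cardFactors (p * m) = 1 + ArithmeticFunction.cardFactors m
    rw [ArithmeticFunction.cardFactors_mul hp.ne_zero hm,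
      ArithmeticFunction.cardFactors_apply_prime hp]
  rw [this]
  push_cast
  rfl

/-- `ff` at `p m` with the shifts `p h`. -/
theorem ff_mul {d : ℕ} (h : Fin d → ℕ) (H : ℕ) {p m : ℕ} (hp : p.Prime) (hm : 1 ≤ m) :
    ff (fun j => p * h j) (p * H) (p * m) = ((d + 1 : ℕ) : ZMod 2) + ff h H m := by
  unfold ff
  have h1 : ∀ k, gg (p * m + p * k) = 1 + gg (m + k) := by
    intro k
    rw [← mul_add]
    exact gg_mul hp (by omega)
  simp only [h1, Finset.sum_add_distrib, Finset.sum_const, Finset.card_univ, Fintype.card_fin]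
  push_cast
  rw [nsmul_eq_mul]
  ring

/-- Upper bound for the number of elements of a class. -/
theorem card_class_le (M q κ : ℕ) (hq : 0 < q) :
    (((Icc 1 M).filter (fun n => n % q = κ)).card : ℝ) ≤ (M : ℝ) / q + 1 := by
  classical
  have hqR : (0 : ℝ) < q := by exact_mod_cast hq
  have h1 : ((Icc 1 M).filter (fun n => n % q = κ)).card ≤ (range (M / q + 1)).card := by
    refine Finset.card_le_card_of_injOn (fun n => n / q) ?_ ?_
    · intro n hn
      have hn1 := (Finset.mem_Icc.1 (Finset.mem_filter.1 (Finset.mem_coe.1 hn)).1).2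
      rw [Finset.mem_coe, Finset.mem_range]
      exact Nat.lt_succ_of_le (Nat.div_le_div_right hn1)
    · intro n hn n' hn' he
      have e1 := (Finset.mem_filter.1 (Finset.mem_coe.1 hn)).2
      have e2 := (Finset.mem_filter.1 (Finset.mem_coe.1 hn')).2
      have e3 : n / q = n' / q := he
      rw [← Nat.div_add_mod n q, ← Nat.div_add_mod n' q, e1, e2, e3]
  rw [Finset.card_range] at h1
  have h2 : (((Icc 1 M).filter (fun n => n % q = κ)).card : ℝ) ≤ ((M / q : ℕ) : ℝ) + 1 := by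
    exact_mod_cast h1
  have h3 : ((M / q : ℕ) : ℝ) ≤ (M : ℝ) / q := Nat.cast_div_le
  linarith

/-- The sum of a sign function over a class. -/
theorem sum_sign (S : Finset ℕ) (u : ℕ → ZMod 2) (t : ZMod 2) :
    ∑ n ∈ S, sg (u n) = sg t * ((S.card : ℝ) - 2 * ((S.filter (fun n => u n ≠ t)).card : ℝ)) := by
  classical
  have h : ∀ n, sg (u n) = sg t * (1 - 2 * (if u n ≠ t then (1 : ℝ) else 0)) := by
    intro n
    have h2 : ∀ x y : ZMod 2, (x = y → sg x = sg y) ∧ (x ≠ y → sg x = - sg y) := by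
      have h3 : ∀ x y : ZMod 2, x = y ∨ x = y + 1 := by decide
      have h4 : ∀ x y : ZMod 2, x = y + 1 → x ≠ y := by decide
      intro x y
      refine ⟨fun e => by rw [e], fun e => ?_⟩
      rcases h3 x y with h5 | h5
      · exact absurd h5 e
      · rw [h5, sg_add]
        have : sg 1 = -1 := by
          unfold sg
          rw [if_neg (by decide)]
        rw [this]
        ring
    by_cases e : u n = t
    · rw [if_neg (by simpa using e), (h2 _ _).1 e]
      ring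
    · rw [if_pos e, (h2 _ _).2 e]
      ring
  rw [Finset.sum_congr rfl fun n _ => h n, ← Finset.mul_sum, Finset.sum_sub_distrib,
    ← Finset.mul_sum, Finset.sum_const, nsmul_eq_mul, mul_one, ← Finset.sum_filter,
    Finset.sum_const, nsmul_eq_mul, mul_one]

/-- The number of exceptions. -/
def ex {d : ℕ} (h : Fin d → ℕ) (H q r : ℕ) (t : ZMod 2) (Y : ℕ) : ℕ :=
  ((Icc 1 Y).filter (fun m => m % q = r ∧ ff h H m ≠ t)).card

theorem ex_mono {d : ℕ} (h : Fin d → ℕ) (H q r : ℕ) (t : ZMod 2) {Y Y' : ℕ} (hY : Y ≤ Y') :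
    ex h H q r t Y ≤ ex h H q r t Y' :=
  Finset.card_le_card (Finset.filter_subset_filter _ (Finset.Icc_subset_Icc_right hY))

/-- One prime. -/
theorem one_prime {d : ℕ} (h : Fin d → ℕ) (H q r : ℕ) [NeZero q] (hr : r < q) (t : ZMod 2) {P p X : ℕ}
    (hp : p ∈ dyP P) (hPq : q ≤ P) :
    2 * (((Icc 1 X).filter (fun n => n % q = (p % q * r) % q ∧
      (∑ j, gg (n + p * h j)) + gg (n + p * H) ≠ t + ((d + 1 : ℕ) : ZMod 2))).card : ℝ) ≤
      |∑ n ∈ Icc 1 X, gG (Phi h H q r) (cc q) p n| + 4 * P * (ex h H q r t (X / P)) + 8 * P := by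
  classical
  obtain ⟨hp1, hp2, hP0, hp0, hpp⟩ := mem_dyP hp
  have hq0 : 0 < q := NeZero.pos q
  have hqR : (0 : ℝ) < q := by exact_mod_cast hq0
  have hq1 : (1 : ℝ) ≤ q := by exact_mod_cast hq0
  have hpR : (0 : ℝ) < p := by exact_mod_cast hp0
  have hcop : Nat.Coprime p q := by
    rw [Nat.Prime.coprime_iff_not_dvd hpp]
    intro hdvd
    have := Nat.le_of_dvd hq0 hdvd
    omega
  set t' : ZMod 2 := t + ((d + 1 : ℕ) : ZMod 2) with ht'
  set κ : ℕ := (p * r) % q with hκ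
  have hκ' : (p % q * r) % q = κ := by rw [hκ, Nat.mod_mul_mod]
  rw [hκ']
  -- the value of the test function
  have hΦ : ∀ n, Phi h H q r p (fun i => cc q (n + i)) =
      if n % q = κ then sg (ff (fun j => p * h j) (p * H) n) else 0 := by
    intro n
    unfold Phi
    rw [if_neg hp0.ne']
    have h1 : ((cc q (n + 0)).2 = MRA.res q (p * r)) ↔ n % q = κ := by
      unfold cc MRA.res
      rw [Fin.ext_iff]
      simp [hκ]
    simp only [h1]
    rfl
  set S₁ := (Icc 1 (X / p)).filter (fun m => m % q = r) with hS₁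
  set S₂ := (Icc 1 X).filter (fun n => n % q = κ) with hS₂
  -- the multiples of `p`
  have hmult : ∑ n ∈ Icc 1 X, (if p ∣ n then (p : ℝ) else 0) * Phi h H q r p (fun i => cc q (n + i)) =
      p * ∑ m ∈ S₁, sg (ff (fun j => p * h j) (p * H) (p * m)) := by
    have h1 : ∑ n ∈ Icc 1 X, (if p ∣ n then (p : ℝ) else 0) * Phi h H q r p (fun i => cc q (n + i)) =
        ∑ n ∈ (Icc 1 X).filter (fun n => p ∣ n), (p : ℝ) * Phi h H q r p (fun i => cc q (n + i)) := by
      rw [Finset.sum_filter]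
      refine Finset.sum_congr rfl fun n _ => ?_
      split_ifs <;> ring
    have h2 : (Icc 1 X).filter (fun n => p ∣ n) = (Icc 1 (X / p)).image (fun m => p * m) := by
      ext n
      simp only [Finset.mem_filter, Finset.mem_Icc, Finset.mem_image]
      constructor
      · rintro ⟨⟨h3, h4⟩, m, rfl⟩
        refine ⟨m, ⟨?_, ?_⟩, rfl⟩
        · rcases Nat.eq_zero_or_pos m with h5 | h5
          · rw [h5, mul_zero] at h3; omega
          · exact h5
        · rw [Nat.le_div_iff_mul_le hp0, mul_comm]; exact h4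
      · rintro ⟨m, ⟨h3, h4⟩, rfl⟩
        refine ⟨⟨Nat.mul_pos hp0 h3, ?_⟩, dvd_mul_right _ _⟩
        rw [Nat.le_div_iff_mul_le hp0, mul_comm] at h4
        exact h4
    rw [h1, h2, Finset.sum_image (fun m _ m' _ he => Nat.eq_of_mul_eq_mul_left hp0 he),
      ← Finset.mul_sum, hS₁, Finset.sum_filter]
    congr 1
    refine Finset.sum_congr rfl fun m _ => ?_
    rw [hΦ]
    have h3 : (p * m) % q = κ ↔ m % q = r := by
      constructor
      · intro h4
        have h5 : p * m ≡ p * r [MOD q] := h4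
        have h6 : m ≡ r [MOD q] := Nat.ModEq.cancel_left_of_coprime (by rw [Nat.gcd_comm]; exact hcop) h5
        have h7 : m % q = r % q := h6
        rw [h7, Nat.mod_eq_of_lt hr]
      · intro h4
        have h6 : m ≡ r [MOD q] := by
          show m % q = r % q
          rw [h4, Nat.mod_eq_of_lt hr]
        exact h6.mul_left p
    simp only [h3]
  have hall : ∑ n ∈ Icc 1 X, Phi h H q r p (fun i => cc q (n + i)) =
      ∑ n ∈ S₂, sg (ff (fun j => p * h j) (p * H) n) := by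
    rw [hS₂, Finset.sum_filter]
    exact Finset.sum_congr rfl fun n _ => hΦ n
  have hS : ∑ n ∈ Icc 1 X, gG (Phi h H q r) (cc q) p n =
      p * ∑ m ∈ S₁, sg (ff (fun j => p * h j) (p * H) (p * m)) -
        ∑ n ∈ S₂, sg (ff (fun j => p * h j) (p * H) n) := by
    rw [← hmult, ← hall, ← Finset.sum_sub_distrib]
    refine Finset.sum_congr rfl fun n _ => ?_
    unfold gG
    ring
  have h1 := sum_sign S₁ (fun m => ff (fun j => p * h j) (p * H) (p * m)) t'
  have h2 := sum_sign S₂ (fun n => ff (fun j => p * h j) (p * H) n) t'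
  have hfil : S₁.filter (fun m => ff (fun j => p * h j) (p * H) (p * m) ≠ t') =
      (Icc 1 (X / p)).filter (fun m => m % q = r ∧ ff h H m ≠ t) := by
    rw [hS₁, Finset.filter_filter]
    refine Finset.filter_congr fun m hm => ?_
    have hm1 := (Finset.mem_Icc.1 hm).1
    rw [ff_mul h H hpp hm1, ht', add_comm t]
    constructor
    · rintro ⟨e1, e2⟩
      exact ⟨e1, fun e3 => e2 (by rw [e3])⟩
    · rintro ⟨e1, e2⟩
      exact ⟨e1, fun e3 => e2 (add_left_cancel e3)⟩
  have hfil2 : S₂.filter (fun n => ff (fun j => p * h j) (p * H) n ≠ t') =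
      (Icc 1 X).filter (fun n => n % q = κ ∧
        (∑ j, gg (n + p * h j)) + gg (n + p * H) ≠ t') := by
    rw [hS₂, Finset.filter_filter]
    rfl
  rw [hfil] at h1
  rw [hfil2] at h2
  set b₁ : ℝ := (((Icc 1 (X / p)).filter (fun m => m % q = r ∧ ff h H m ≠ t)).card : ℝ) with hb₁
  set b₂ : ℝ := (((Icc 1 X).filter (fun n => n % q = κ ∧
        (∑ j, gg (n + p * h j)) + gg (n + p * H) ≠ t')).card : ℝ) with hb₂
  rw [h1, h2] at hS
  have hab : |(p : ℝ) * (sg t' * ((S₁.card : ℝ) - 2 * b₁)) - sg t' * ((S₂.card : ℝ) - 2 * b₂)| =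
      |(p : ℝ) * ((S₁.card : ℝ) - 2 * b₁) - ((S₂.card : ℝ) - 2 * b₂)| := by
    have : (p : ℝ) * (sg t' * ((S₁.card : ℝ) - 2 * b₁)) - sg t' * ((S₂.card : ℝ) - 2 * b₂) =
      sg t' * ((p : ℝ) * ((S₁.card : ℝ) - 2 * b₁) - ((S₂.card : ℝ) - 2 * b₂)) := by ring
    rw [this, abs_mul, sg_abs, one_mul]
  rw [hS, hab]
  have h3 := le_abs_self ((p : ℝ) * ((S₁.card : ℝ) - 2 * b₁) - ((S₂.card : ℝ) - 2 * b₂))
  have h4 : ((X / p : ℕ) : ℝ) / q - 2 ≤ (S₁.card : ℝ) := card_class (X / p) q r hq0 hr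
  have h5 : (S₂.card : ℝ) ≤ (X : ℝ) / q + 1 := card_class_le X q κ hq0
  have h6 : (X : ℝ) - p ≤ p * ((X / p : ℕ) : ℝ) := by
    have h7 : X < p * (X / p + 1) := Nat.lt_mul_div_succ X hp0
    have h8 : (X : ℝ) < p * (((X / p : ℕ) : ℝ) + 1) := by exact_mod_cast h7
    linarith
  have h7 : (X : ℝ) / q - 3 * p ≤ p * (S₁.card : ℝ) := by
    have h8 : (p : ℝ) * (((X / p : ℕ) : ℝ) / q - 2) ≤ p * (S₁.card : ℝ) :=
      mul_le_mul_of_nonneg_left h4 hpR.le
    have h9 : ((X : ℝ) - p) / q ≤ p * ((X / p : ℕ) : ℝ) / q := div_le_div_of_nonneg_right h6 hqR.le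
    have h10 : (p : ℝ) / q ≤ p := div_le_self hpR.le hq1
    have h11 : ((X : ℝ) - p) / q = (X : ℝ) / q - p / q := by ring
    have h12 : (p : ℝ) * (((X / p : ℕ) : ℝ) / q - 2) = p * ((X / p : ℕ) : ℝ) / q - 2 * p := by ring
    linarith
  have h8 : b₁ ≤ (ex h H q r t (X / P) : ℝ) := by
    have h9 : ex h H q r t (X / p) ≤ ex h H q r t (X / P) :=
      ex_mono h H q r t (Nat.div_le_div_left hp1.le hP0)
    rw [hb₁]
    exact_mod_cast h9
  have hp2R : (p : ℝ) ≤ 2 * P := by exact_mod_cast hp2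
  have hb0 : 0 ≤ b₁ := Nat.cast_nonneg _
  have h9 : 2 * (p * b₁) ≤ 4 * P * (ex h H q r t (X / P)) := by
    have h10 : (p : ℝ) * b₁ ≤ (2 * P) * (ex h H q r t (X / P)) :=
      mul_le_mul hp2R h8 hb0 (by positivity)
    linarith
  have hp1R : (1 : ℝ) ≤ p := by exact_mod_cast hp0
  linarith

/-- **The transfer.** -/
theorem transfer (d q : ℕ) (hd : 1 ≤ d) [NeZero q] : ∃ δ₁ : ℝ, 0 < δ₁ ∧
    ∀ (h : Fin d → ℕ) (H : ℕ), (∀ i, h i < H) → ∃ P₀ : ℕ, ∀ P : ℕ, P₀ ≤ P → ∃ X₀ : ℕ, ∀ X : ℕ, X₀ ≤ X →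
      ∀ r < q, ∀ t : ZMod 2, (ex h H q r t (X / P) : ℝ) * P ≤ δ₁ * X →
        δ₁ * X < QAG (Phi h H q r) X P (cc q) := by
  classical
  have hq0 : 0 < q := NeZero.pos q
  obtain ⟨D, hD, hno⟩ := nogap d q hd hq0
  refine ⟨D / 8, by positivity, fun h H hH => ?_⟩
  obtain ⟨P₁, hP₁⟩ := hno h H hH
  refine ⟨max P₁ (max q 1), fun P hP => ?_⟩
  have hPP : P₁ ≤ P := le_trans (le_max_left _ _) hP
  have hPq : q ≤ P := le_trans (le_trans (le_max_left _ _) (le_max_right _ _)) hP
  have hP1 : 1 ≤ P := le_trans (le_trans (le_max_right _ _) (le_max_right _ _)) hP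
  obtain ⟨M₀, hM₀⟩ := hP₁ P hPP
  obtain ⟨M₁, hM₁⟩ := exists_nat_gt (8 * P / D)
  refine ⟨max M₀ M₁, fun X hX r hr t hex => ?_⟩
  have hX0 : M₀ ≤ X := le_trans (le_max_left _ _) hX
  have hX1 : 8 * P < D * X := by
    have h1 : (M₁ : ℝ) ≤ X := by exact_mod_cast le_trans (le_max_right _ _) hX
    have h2 : 8 * P / D < X := hM₁.trans_le h1
    rw [div_lt_iff₀ hD] at h2
    linarith
  have h1 := hM₀ X hX0 (fun x => (x * r) % q) (fun _ => t + ((d + 1 : ℕ) : ZMod 2))
    (fun _ => Nat.mod_lt _ hq0)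
  set b : ℕ → ℝ := fun p => (((Icc 1 X).filter (fun n => n % q = (p % q * r) % q ∧
      (∑ j, gg (n + p * h j)) + gg (n + p * H) ≠ t + ((d + 1 : ℕ) : ZMod 2))).card : ℝ) with hb
  have h1' : D * (dyP P).card * X < ∑ p ∈ dyP P, b p := h1
  set N : ℝ := ((dyP P).card : ℝ) with hN
  have hNpos : 0 < N := by
    rcases Nat.eq_zero_or_pos (dyP P).card with h0 | h0
    · exfalso
      have : dyP P = ∅ := Finset.card_eq_zero.1 h0
      have hN0 : N = 0 := by rw [hN, h0]; simp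
      rw [hN0, this] at h1'
      simp at h1'
    · rw [hN]; exact_mod_cast h0
  have h2 : 2 * ∑ p ∈ dyP P, b p ≤ ∑ p ∈ dyP P, |∑ n ∈ Icc 1 X, gG (Phi h H q r) (cc q) p n| +
      N * (4 * P * (ex h H q r t (X / P)) + 8 * P) := by
    calc 2 * ∑ p ∈ dyP P, b p = ∑ p ∈ dyP P, 2 * b p := Finset.mul_sum _ _ _
      _ ≤ ∑ p ∈ dyP P, (|∑ n ∈ Icc 1 X, gG (Phi h H q r) (cc q) p n| +
          (4 * P * (ex h H q r t (X / P)) + 8 * P)) := by
          refine Finset.sum_le_sum fun p hp => ?_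
          have := one_prime h H q r hr t (X := X) hp hPq
          simp only [hb]
          linarith
      _ = _ := by
          rw [Finset.sum_add_distrib, Finset.sum_const, nsmul_eq_mul]
  have h3 : ∑ p ∈ dyP P, |∑ n ∈ Icc 1 X, gG (Phi h H q r) (cc q) p n| =
      N * QAG (Phi h H q r) X P (cc q) := by
    unfold QAG
    rw [← hN]
    field_simp
  rw [h3] at h2
  have h4 : N * (2 * D * X) < N * (QAG (Phi h H q r) X P (cc q) +
      (4 * P * (ex h H q r t (X / P)) + 8 * P)) := by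
    calc N * (2 * D * X) = 2 * (D * N * X) := by ring
      _ < 2 * ∑ p ∈ dyP P, b p := by linarith
      _ ≤ _ := by linarith
  have h5 := lt_of_mul_lt_mul_left h4 hNpos.le
  have hX0R : (0 : ℝ) ≤ X := Nat.cast_nonneg X
  nlinarith

end UGE
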